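import Mathlib

/-!
# MP_2e7467_an: `x_{n+1} = (∑ β_i x_{n-i}) / (A + ∑ B_i x_{n-i})` with `A = ∑ β_i`

If there is no solution of prime period `p ≥ 2`, the zero equilibrium is globally asymptotically
stable.
-/

set_option autoImplicit false

open Filter Topology Finset

namespace Pool.Agent.Results.MP_2e7467_an.PeriodicOrStable

/-- `x` is a solution with nonnegative initial values.  The indices are shifted by `k`, so that
`x 0, ..., x k` are the initial values `x_{-k}, ..., x_0`. -/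
def IsSolution (k : ℕ) (A : ℝ) (β B : Fin (k + 1) → ℝ) (x : ℕ → ℝ) : Prop :=
  (∀ j, j ≤ k → 0 ≤ x j) ∧
    ∀ n, x (n + k + 1) = (∑ i, β i * x (n + k - i)) / (A + ∑ i, B i * x (n + k - i))

/-- `x` has prime period `p`. -/
def HasPrimePeriod (x : ℕ → ℝ) (p : ℕ) : Prop :=
  IsLeast {q : ℕ | 1 ≤ q ∧ ∀ n, x (n + q) = x n} p

/-- The zero equilibrium is stable. -/
def ZeroStable (k : ℕ) (A : ℝ) (β B : Fin (k + 1) → ℝ) : Prop :=
  ∀ ε > 0, ∃ δ > 0, ∀ x, IsSolution k A β B x → (∀ j, j ≤ k → x j < δ) → ∀ n, x n < ε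

/-- The zero equilibrium is globally asymptotically stable. -/
def ZeroGloballyAsymptoticallyStable (k : ℕ) (A : ℝ) (β B : Fin (k + 1) → ℝ) : Prop :=
  ZeroStable k A β B ∧ ∀ x, IsSolution k A β B x → Tendsto x atTop (𝓝 0)

section

variable {k : ℕ} {A : ℝ} {β B : Fin (k + 1) → ℝ} {x : ℕ → ℝ}

lemma solution_nonneg (hβ : ∀ i, 0 ≤ β i) (hB : ∀ i, 0 ≤ B i) (hA : 0 < A)
    (hx : IsSolution k A β B x) (n : ℕ) : 0 ≤ x n := by
  induction n using Nat.strong_induction_on with
  | _ n ih =>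
    rcases le_or_gt n k with h | h
    · exact hx.1 n h
    · obtain ⟨m, rfl⟩ : ∃ m, n = m + k + 1 := ⟨n - (k + 1), by omega⟩
      rw [hx.2 m]
      apply div_nonneg
      · exact Finset.sum_nonneg fun i _ => mul_nonneg (hβ i) (ih _ (by omega))
      · apply add_nonneg hA.le
        exact Finset.sum_nonneg fun i _ => mul_nonneg (hB i) (ih _ (by omega))

lemma solution_eq (hβ : ∀ i, 0 ≤ β i) (hB : ∀ i, 0 ≤ B i) (hA : 0 < A)
    (hx : IsSolution k A β B x) {n : ℕ} (hn : k + 1 ≤ n) :
    x n * (A + ∑ i : Fin (k + 1), B i * x (n - (i + 1))) =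
      ∑ i : Fin (k + 1), β i * x (n - (i + 1)) := by
  obtain ⟨m, rfl⟩ : ∃ m, n = m + k + 1 := ⟨n - (k + 1), by omega⟩
  have e : ∀ i : Fin (k + 1), m + k + 1 - ((i : ℕ) + 1) = m + k - i := fun i => by omega
  simp only [e]
  rw [hx.2 m, div_mul_cancel₀]
  have : 0 ≤ ∑ i : Fin (k + 1), B i * x (m + k - i) :=
    Finset.sum_nonneg fun i _ => mul_nonneg (hB i) (solution_nonneg hβ hB hA hx _)
  positivity

lemma solution_le (hβ : ∀ i, 0 ≤ β i) (hB : ∀ i, 0 ≤ B i) (hA : 0 < A) (hAβ : A = ∑ i, β i)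
    (hx : IsSolution k A β B x) {C : ℝ} (hC : ∀ j, j ≤ k → x j ≤ C) (n : ℕ) : x n ≤ C := by
  induction n using Nat.strong_induction_on with
  | _ n ih =>
    rcases le_or_gt n k with h | h
    · exact hC n h
    · have h1 := solution_eq hβ hB hA hx (n := n) (by omega)
      have h2 : ∑ i : Fin (k + 1), β i * x (n - (i + 1)) ≤ ∑ i : Fin (k + 1), β i * C :=
        Finset.sum_le_sum fun i _ => mul_le_mul_of_nonneg_left (ih _ (by omega)) (hβ i)
      rw [← Finset.sum_mul, ← hAβ, ← h1] at h2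
      have h3 : 0 ≤ ∑ i : Fin (k + 1), B i * x (n - (i + 1)) :=
        Finset.sum_nonneg fun i _ => mul_nonneg (hB i) (solution_nonneg hβ hB hA hx _)
      have h4 := solution_nonneg hβ hB hA hx n
      have h5 : A * x n ≤ A * C := by nlinarith [mul_nonneg h4 h3]
      exact le_of_mul_le_mul_left h5 hA

lemma zeroStable (hβ : ∀ i, 0 ≤ β i) (hB : ∀ i, 0 ≤ B i) (hA : 0 < A) (hAβ : A = ∑ i, β i) :
    ZeroStable k A β B := by
  intro ε hε
  refine ⟨ε / 2, by positivity, fun x hx h n => ?_⟩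
  have := solution_le hβ hB hA hAβ hx (C := ε / 2) (fun j hj => (h j hj).le) n
  linarith

/-! ### Shifts along which the solution tends to its upper limit -/

/-- going back by a delay of the numerator -/
lemma good_add (hβ : ∀ i, 0 ≤ β i) (hB : ∀ i, 0 ≤ B i) (hA : 0 < A) (hAβ : A = ∑ i, β i)
    (hx : IsSolution k A β B x) {M : ℝ} (_hM : 0 ≤ M) (hup : ∀ e > 0, ∀ᶠ n in atTop, x n < M + e)
    {l : Filter ℕ} (hl : l ≤ atTop) {m : ℕ} (hm : Tendsto (fun n => x (n - m)) l (𝓝 M))
    {i : Fin (k + 1)} (hi : 0 < β i) : Tendsto (fun n => x (n - (m + (i + 1)))) l (𝓝 M) := by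
  rw [Metric.tendsto_nhds] at hm ⊢
  intro ε hε
  obtain ⟨e, he, he1, he2⟩ : ∃ e > 0, e ≤ ε ∧ 2 * A * e ≤ β i * ε := by
    refine ⟨min ε (β i * ε / (2 * A)), by positivity, min_le_left _ _, ?_⟩
    calc 2 * A * min ε (β i * ε / (2 * A)) ≤ 2 * A * (β i * ε / (2 * A)) :=
          mul_le_mul_of_nonneg_left (min_le_right _ _) (by positivity)
      _ = β i * ε := by field_simp
  obtain ⟨N, hN⟩ := eventually_atTop.1 (hup e he)
  filter_upwards [hm e he, hl (eventually_ge_atTop (N + m + k + 1 + k + 1))] with n hn hn'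
  rw [Real.dist_eq, abs_lt] at hn ⊢
  have hiN : (i : ℕ) ≤ k := by omega
  have hup' : x (n - (m + (i + 1))) < M + e := hN _ (by omega)
  refine ⟨?_, by linarith⟩
  have h1 := solution_eq hβ hB hA hx (n := n - m) (by omega)
  have h3 : 0 ≤ ∑ i : Fin (k + 1), B i * x (n - m - (i + 1)) :=
    Finset.sum_nonneg fun i _ => mul_nonneg (hB i) (solution_nonneg hβ hB hA hx _)
  have h4 := solution_nonneg hβ hB hA hx (n - m)
  have h5 : x (n - m) * A ≤ ∑ i : Fin (k + 1), β i * x (n - m - (i + 1)) := by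
    nlinarith [mul_nonneg h4 h3]
  rw [← Finset.add_sum_erase _ _ (Finset.mem_univ i)] at h5
  have h6 : ∑ j ∈ univ.erase i, β j * x (n - m - (j + 1)) ≤ (A - β i) * (M + e) := by
    have : A - β i = ∑ j ∈ univ.erase i, β j := by
      rw [hAβ, ← Finset.add_sum_erase _ β (Finset.mem_univ i)]; ring
    rw [this, Finset.sum_mul]
    apply Finset.sum_le_sum
    intro j _
    apply mul_le_mul_of_nonneg_left _ (hβ j)
    have hj : (j : ℕ) ≤ k := by omega
    exact (hN _ (by omega)).le
  have e0 : n - (m + ((i : ℕ) + 1)) = n - m - (i + 1) := by omega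
  rw [e0]
  have h7 : 0 < β i * (x (n - m - (i + 1)) - M + ε) := by
    nlinarith [mul_pos hi he]
  have := (mul_pos_iff_of_pos_left hi).1 h7
  linarith

/-- going back by a delay of the denominator -/
lemma good_zero (hβ : ∀ i, 0 ≤ β i) (hB : ∀ i, 0 ≤ B i) (hA : 0 < A) (hAβ : A = ∑ i, β i)
    (hx : IsSolution k A β B x) {M : ℝ} (hM : 0 < M) (hup : ∀ e > 0, ∀ᶠ n in atTop, x n < M + e)
    {l : Filter ℕ} (hl : l ≤ atTop) {m : ℕ} (hm : Tendsto (fun n => x (n - m)) l (𝓝 M))
    {j : Fin (k + 1)} (hj : 0 < B j) : Tendsto (fun n => x (n - (m + (j + 1)))) l (𝓝 0) := by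
  have h1 : Tendsto (fun n => ∑ i : Fin (k + 1), β i * x (n - (m + (i + 1)))) l
      (𝓝 (∑ i : Fin (k + 1), β i * M)) := by
    apply tendsto_finsetSum
    intro i _
    rcases (hβ i).eq_or_lt with h | h
    · simpa [← h] using tendsto_const_nhds
    · exact (good_add hβ hB hA hAβ hx hM.le hup hl hm h).const_mul _
  rw [← Finset.sum_mul, ← hAβ] at h1
  have h2 : Tendsto (fun n => (∑ i : Fin (k + 1), β i * x (n - (m + (i + 1))) -
      x (n - m) * A) / (x (n - m) * B j)) l (𝓝 ((A * M - M * A) / (M * B j))) := by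
    apply (h1.sub (hm.mul_const A)).div (hm.mul_const (B j))
    positivity
  rw [show (A * M - M * A) / (M * B j) = 0 by ring] at h2
  apply tendsto_of_tendsto_of_tendsto_of_le_of_le' tendsto_const_nhds h2
  · exact Eventually.of_forall fun n => solution_nonneg hβ hB hA hx _
  · filter_upwards [hm.eventually (lt_mem_nhds hM), hl (eventually_ge_atTop (m + k + 1))]
      with n hn hn'
    have e0 : ∀ i : Fin (k + 1), n - (m + ((i : ℕ) + 1)) = n - m - (i + 1) := fun i => by omega
    simp only [e0]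
    rw [le_div_iff₀ (by positivity), ← solution_eq hβ hB hA hx (n := n - m) (by omega)]
    have h3 : B j * x (n - m - (j + 1)) ≤ ∑ i : Fin (k + 1), B i * x (n - m - (i + 1)) :=
      Finset.single_le_sum (f := fun i : Fin (k + 1) => B i * x (n - m - (i + 1)))
        (fun i _ => mul_nonneg (hB i) (solution_nonneg hβ hB hA hx _)) (Finset.mem_univ j)
    nlinarith [mul_le_mul_of_nonneg_left h3 hn.le]

/-- the greatest common divisor of the delays of the numerator -/
noncomputable def gcdDelay (k : ℕ) (β : Fin (k + 1) → ℝ) : ℕ :=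
  (univ.filter fun i : Fin (k + 1) => 0 < β i).gcd fun i => (i : ℕ) + 1

lemma gcdDelay_dvd {i : Fin (k + 1)} (hi : 0 < β i) : gcdDelay k β ∣ i + 1 := by
  exact Finset.gcd_dvd (f := fun i : Fin (k + 1) => (i : ℕ) + 1) (by simpa using hi)

lemma dvd_gcdDelay {g : ℕ} (hg : ∀ i, 0 < β i → g ∣ (i : ℕ) + 1) : g ∣ gcdDelay k β := by
  apply Finset.dvd_gcd
  intro i hi
  exact hg i (by simpa using hi)

/-- the delays of the numerator generate, up to a shift, all multiples of their gcd -/
lemma exists_shift (S : AddSubmonoid ℕ) (hS : ∀ i : Fin (k + 1), 0 < β i → (i : ℕ) + 1 ∈ S)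
    {b : ℕ} (hb : gcdDelay k β ∣ b) : ∃ c ∈ S, c + b ∈ S := by
  let H : AddSubgroup ℤ :=
    { carrier := {z : ℤ | ∃ c ∈ S, ∃ c' ∈ S, (c : ℤ) + z = c'}
      zero_mem' := ⟨0, S.zero_mem, 0, S.zero_mem, by simp⟩
      add_mem' := by
        rintro a b ⟨c, hc, c', hc', h⟩ ⟨e, he, e', he', h'⟩
        exact ⟨c + e, S.add_mem hc he, c' + e', S.add_mem hc' he', by push_cast; linarith⟩
      neg_mem' := by
        rintro a ⟨c, hc, c', hc', h⟩
        exact ⟨c', hc', c, hc, by linarith⟩ }
  obtain ⟨a, ha⟩ := Int.subgroup_cyclic H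
  rw [← AddSubgroup.zmultiples_eq_closure] at ha
  have h1 : a.natAbs ∣ gcdDelay k β := by
    apply dvd_gcdDelay
    intro i hi
    have : ((i : ℕ) + 1 : ℤ) ∈ H := ⟨0, S.zero_mem, (i : ℕ) + 1, hS i hi, by push_cast; ring⟩
    rw [ha, Int.mem_zmultiples_iff] at this
    have h2 := Int.natAbs_dvd_natAbs.2 this
    rwa [show ((i : ℕ) + 1 : ℤ).natAbs = (i : ℕ) + 1 by omega] at h2
  have h2 : (b : ℤ) ∈ H := by
    rw [ha, Int.mem_zmultiples_iff]
    have := h1.trans hb
    rwa [← Int.natCast_dvd_natCast, Int.natAbs_dvd] at this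
  obtain ⟨c, hc, c', hc', h⟩ := h2
  refine ⟨c, hc, ?_⟩
  have : c + b = c' := by exact_mod_cast h
  rwa [this]

/-- if the gcd of the numerator delays divides a denominator delay, every solution tends to `0` -/
lemma tendsto_zero (hβ : ∀ i, 0 ≤ β i) (hB : ∀ i, 0 ≤ B i) (hA : 0 < A) (hAβ : A = ∑ i, β i)
    {j : Fin (k + 1)} (hj : 0 < B j) (hd : gcdDelay k β ∣ j + 1) (hx : IsSolution k A β B x) :
    Tendsto x atTop (𝓝 0) := by
  have h0 := solution_nonneg hβ hB hA hx
  have hbd : ∃ C, ∀ n, x n ≤ C := by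
    refine ⟨∑ j ∈ range (k + 1), x j, solution_le hβ hB hA hAβ hx fun j hj => ?_⟩
    exact Finset.single_le_sum (f := x) (fun i _ => h0 i) (Finset.mem_range.2 (by omega))
  obtain ⟨C, hC⟩ := hbd
  have hb1 : IsBoundedUnder (· ≤ ·) atTop x := isBoundedUnder_of ⟨C, hC⟩
  have hb2 : IsBoundedUnder (· ≥ ·) atTop x := isBoundedUnder_of ⟨0, h0⟩
  set M := limsup x atTop with hMdef
  have hM0 : 0 ≤ M := le_limsup_of_frequently_le (Frequently.of_forall h0) hb1
  have hup : ∀ e > 0, ∀ᶠ n in atTop, x n < M + e := fun e he =>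
    eventually_lt_of_limsup_lt (by linarith) hb1
  have hlow : ∀ e > 0, ∃ᶠ n in atTop, M - e < x n := fun e he =>
    frequently_lt_of_lt_limsup hb2.isCoboundedUnder_le (by linarith)
  rcases hM0.eq_or_lt with hM | hM
  · rw [← hM] at hup
    rw [Metric.tendsto_nhds]
    intro e he
    filter_upwards [hup e he] with n hn
    rw [Real.dist_eq, sub_zero, abs_of_nonneg (h0 n)]
    linarith
  exfalso
  -- a filter along which `x` tends to `M`
  have hcl : MapClusterPt M atTop x := by
    rw [mapClusterPt_iff_frequently]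
    intro s hs
    obtain ⟨e, he, hes⟩ := Metric.mem_nhds_iff.1 hs
    refine ((hlow e he).and_eventually (hup e he)).mono fun n hn => hes ?_
    rw [Metric.mem_ball, Real.dist_eq, abs_lt]
    constructor <;> linarith [hn.1, hn.2]
  have hne : NeBot (atTop ⊓ comap x (𝓝 M)) := by
    have := hcl.neBot
    rwa [← Filter.push_pull', Filter.map_neBot_iff, inf_comm] at this
  set l : Filter ℕ := atTop ⊓ comap x (𝓝 M) with hldef
  have hl : l ≤ atTop := inf_le_left
  have hxl : Tendsto x l (𝓝 M) := tendsto_comap.mono_left inf_le_right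
  let S : AddSubmonoid ℕ := AddSubmonoid.closure {a | ∃ i : Fin (k + 1), 0 < β i ∧ a = (i : ℕ) + 1}
  have hgood : ∀ s ∈ S, ∀ m, Tendsto (fun n => x (n - m)) l (𝓝 M) →
      Tendsto (fun n => x (n - (m + s))) l (𝓝 M) := by
    intro s hs
    induction hs using AddSubmonoid.closure_induction with
    | mem a ha =>
      obtain ⟨i, hi, rfl⟩ := ha
      intro m hm
      exact good_add hβ hB hA hAβ hx hM.le hup hl hm hi
    | zero => exact fun m hm => by simpa using hm
    | add a b _ _ ha hb =>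
      intro m hm
      have := hb _ (ha m hm)
      simpa only [add_assoc] using this
  have hbase : Tendsto (fun n => x (n - 0)) l (𝓝 M) := by simpa using hxl
  obtain ⟨c, hc, hcb⟩ := exists_shift (β := β) S
    (fun i hi => AddSubmonoid.subset_closure ⟨i, hi, rfl⟩) hd
  have t1 := hgood c hc 0 hbase
  have t2 := good_zero hβ hB hA hAβ hx hM hup hl t1 hj
  have t3 := hgood _ hcb 0 hbase
  simp only [zero_add] at t2 t3
  have := tendsto_nhds_unique t2 t3
  linarith

/-- if the gcd `d` of the numerator delays divides no denominator delay, then the indicator of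
the multiples of `d` is a solution of prime period `d ≥ 2` -/
lemma exists_periodic (hβ : ∀ i, 0 ≤ β i) (hB : ∀ i, 0 ≤ B i) (hA : 0 < A) (hAβ : A = ∑ i, β i)
    (hBsum : 0 < ∑ i, B i) (hd : ¬ ∃ j : Fin (k + 1), 0 < B j ∧ gcdDelay k β ∣ j + 1) :
    ∃ y : ℕ → ℝ, IsSolution k A β B y ∧ 2 ≤ gcdDelay k β ∧ HasPrimePeriod y (gcdDelay k β) ∧
      ∀ n, y (gcdDelay k β * n) = 1 := by
  set d := gcdDelay k β with hddef
  push Not at hd
  obtain ⟨j, hj⟩ : ∃ j, 0 < B j := by
    by_contra h
    push Not at h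
    have : ∑ i, B i ≤ 0 := Finset.sum_nonpos fun i _ => h i
    linarith
  obtain ⟨i, hi⟩ : ∃ i, 0 < β i := by
    by_contra h
    push Not at h
    have : ∑ i, β i ≤ 0 := Finset.sum_nonpos fun i _ => h i
    linarith
  have hd0 : d ≠ 0 := by
    intro h
    have := gcdDelay_dvd hi
    rw [← hddef, h, zero_dvd_iff] at this
    omega
  have hd1 : d ≠ 1 := by
    intro h
    apply hd j hj
    rw [h]
    exact one_dvd _
  refine ⟨fun n => if d ∣ n then 1 else 0, ⟨fun j _ => ?_, fun n => ?_⟩, by omega, ⟨⟨by omega, ?_⟩,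
    ?_⟩, fun n => ?_⟩
  · dsimp only
    split_ifs <;> norm_num
  · dsimp only
    have e : ∀ i : Fin (k + 1), n + k - (i : ℕ) = n + k + 1 - (i + 1) := fun i => by omega
    by_cases h : d ∣ n + k + 1
    · rw [if_pos h]
      have s1 : ∑ i : Fin (k + 1), β i * (if d ∣ n + k - i then (1 : ℝ) else 0) = A := by
        rw [hAβ]
        apply Finset.sum_congr rfl
        intro i _
        rcases (hβ i).eq_or_lt with h' | h'
        · rw [← h', zero_mul]
        · rw [e, if_pos (Nat.dvd_sub h (gcdDelay_dvd h')), mul_one]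
      have s2 : ∑ i : Fin (k + 1), B i * (if d ∣ n + k - i then (1 : ℝ) else 0) = 0 := by
        apply Finset.sum_eq_zero
        intro i _
        rcases (hB i).eq_or_lt with h' | h'
        · rw [← h', zero_mul]
        · rw [if_neg, mul_zero]
          intro h2
          rw [e] at h2
          apply hd i h'
          have h3 := Nat.dvd_sub h h2
          rwa [show n + k + 1 - (n + k + 1 - ((i : ℕ) + 1)) = i + 1 by omega] at h3
      rw [s1, s2, add_zero, div_self hA.ne']
    · rw [if_neg h]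
      have s1 : ∑ i : Fin (k + 1), β i * (if d ∣ n + k - i then (1 : ℝ) else 0) = 0 := by
        apply Finset.sum_eq_zero
        intro i _
        rcases (hβ i).eq_or_lt with h' | h'
        · rw [← h', zero_mul]
        · rw [if_neg, mul_zero]
          intro h2
          apply h
          rw [e] at h2
          have h3 := Nat.dvd_add h2 (gcdDelay_dvd h')
          rwa [show n + k + 1 - ((i : ℕ) + 1) + (i + 1) = n + k + 1 by omega] at h3
      rw [s1, zero_div]
  · intro n
    simp only [Nat.dvd_add_self_right]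
  · rintro q ⟨hq, hq'⟩
    have := hq' 0
    simp only [zero_add, dvd_zero, if_true] at this
    split_ifs at this with h
    · exact Nat.le_of_dvd hq h
    · norm_num at this
  · exact if_pos (dvd_mul_right _ _)

end

/-- **The trichotomy character of `x_{n+1} = (∑ β_i x_{n-i}) / (A + ∑ B_i x_{n-i})` in the
critical case `A = ∑ β_i`.**  If there is no solution of prime period `p ≥ 2`, then the zero
equilibrium is globally asymptotically stable.  Moreover the zero equilibrium is globally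
asymptotically stable if and only if the greatest common divisor of the numerator delays
`{i + 1 : β_i > 0}` divides some denominator delay `j + 1`, `B_j > 0`. -/
theorem result (k : ℕ) (A : ℝ) (β B : Fin (k + 1) → ℝ) (hA : 0 < A) (hβ : ∀ i, 0 ≤ β i)
    (hB : ∀ i, 0 ≤ B i) (hBsum : 0 < ∑ i, B i) (hAβ : A = ∑ i, β i) :
    ((¬ ∃ (x : ℕ → ℝ) (p : ℕ), IsSolution k A β B x ∧ 2 ≤ p ∧ HasPrimePeriod x p) →
      ZeroGloballyAsymptoticallyStable k A β B) ∧
    (ZeroGloballyAsymptoticallyStable k A β B ↔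
      ∃ j : Fin (k + 1), 0 < B j ∧ gcdDelay k β ∣ j + 1) := by
  have hmain : (∃ j : Fin (k + 1), 0 < B j ∧ gcdDelay k β ∣ j + 1) →
      ZeroGloballyAsymptoticallyStable k A β B := by
    rintro ⟨j, hj, hd⟩
    exact ⟨zeroStable hβ hB hA hAβ, fun x hx => tendsto_zero hβ hB hA hAβ hj hd hx⟩
  refine ⟨fun h => hmain ?_, fun h => ?_, hmain⟩
  · by_contra hd
    obtain ⟨y, h1, h2, h3, _⟩ := exists_periodic hβ hB hA hAβ hBsum hd
    exact h ⟨y, _, h1, h2, h3⟩
  · by_contra hd
    obtain ⟨y, h1, h2, _, h4⟩ := exists_periodic hβ hB hA hAβ hBsum hd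
    have h5 := h.2 y h1
    have h6 : Tendsto (fun n => y (gcdDelay k β * n)) atTop (𝓝 0) := by
      apply h5.comp
      apply tendsto_atTop_mono _ tendsto_id
      intro n
      have : 1 * n ≤ gcdDelay k β * n := Nat.mul_le_mul_right _ (by omega)
      simp only [id]
      omega
    simp only [h4] at h6
    have := tendsto_nhds_unique h6 tendsto_const_nhds
    norm_num at this

end Pool.Agent.Results.MP_2e7467_an.PeriodicOrStable
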